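import Pool.Agent.MP_b13154_gt.Mg.Main

namespace Pool.Agent.Results.MP_b13154_gt.Alternating

open Pool.Agent.MP_b13154_gt

/-- The number of flype classes of reduced prime alternating knot diagrams is finite for each number
of crossings and strictly increasing from four crossings on. -/
theorem result (n m : ℕ) (hn : 3 < n) (hm : n < m) :
    (classes n).Finite ∧ (classes m).Finite ∧ (classes n).ncard < (classes m).ncard := by
  refine ⟨classes_finite n, classes_finite m, ?_⟩
  induction m, hm using Nat.le_induction with
  | base => exact ncard_lt hn
  | succ m h ih => exact ih.trans (ncard_lt (by omega))

end Pool.Agent.Results.MP_b13154_gt.Alternating
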