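import Pool.Agent.MP_b13154_gt.H69.Main

namespace Pool.Agent.Results.MP_b13154_gt.BoundedGap

open Pool.Agent.MP_b13154_gt.H25

theorem result : (∀ n, (primeKnots n).Finite) ∧
    ∃ C : ℕ, ∀ n : ℕ, ∃ m : ℕ, n < m ∧ m ≤ n + C ∧
      (∀ j < m, (primeKnots j).ncard < (primeKnots m).ncard) ∧
      ∑ j ∈ Finset.range (n + 1), (primeKnots j).ncard < (primeKnots m).ncard :=
  ⟨pk_fin, Pool.Agent.MP_b13154_gt.H69.bounded_gap⟩

end Pool.Agent.Results.MP_b13154_gt.BoundedGap
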