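import Pool.Agent.MP_b13154_gt.Mg.H25_Dia

namespace Pool.Agent.Results.MP_b13154_gt.GrowthRate

open Pool.Agent.MP_b13154_gt.H25 Filter Topology

theorem result : (∀ n, (primeKnots n).Finite) ∧ ∃ l : ℝ, 1 < l ∧
    Tendsto (fun n : ℕ => ((∑ j ∈ Finset.range (n + 1), (primeKnots j).ncard : ℕ) : ℝ) ^
      (1 / (n : ℝ))) atTop (𝓝 l) :=
  ⟨pk_fin, growth⟩

end Pool.Agent.Results.MP_b13154_gt.GrowthRate
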